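import Mathlib

/-!
# Labelled graded orders with four grade levels

The asked formula `log₂ a₄(n) = n²/4 + (5/4) n + O(log n)` is false: with level sizes
`m, 3m-1, 2m, 1` and `n = 6m` one finds
`log₂ a₄(6m) ≥ 9m² + (5 + log₂ 6) m - log₂ (144 m)`, and `5 + log₂ 6 > 15/2`.
-/

namespace Pool.Agent.Results.MP_ac85ec_co.FourLevels

open Finset

/-! ### Definitions -/

/-- Partial orders, as relations. -/
def IsOrd {n : ℕ} (r : Fin n → Fin n → Prop) : Prop :=
  (∀ x, r x x) ∧ (∀ x y, r x y → r y x → x = y) ∧ ∀ x y z, r x y → r y z → r x z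

/-- `q` covers `p`. -/
def Covers {n : ℕ} (r : Fin n → Fin n → Prop) (p q : Fin n) : Prop :=
  r p q ∧ p ≠ q ∧ ¬ ∃ z, z ≠ p ∧ z ≠ q ∧ r p z ∧ r z q

/-- `x` and `y` are in the same component of the comparability graph. -/
def SameComp {n : ℕ} (r : Fin n → Fin n → Prop) (x y : Fin n) : Prop :=
  Relation.ReflTransGen (fun a b => r a b ∨ r b a) x y

/-- `g` is the normalised grade function. -/
def IsGrade {n : ℕ} (r : Fin n → Fin n → Prop) (g : Fin n → ℕ) : Prop :=
  (∀ x, 1 ≤ g x) ∧ (∀ x y, r x y → g x ≤ g y) ∧ (∀ p q, Covers r p q → g q = g p + 1) ∧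
  ∀ x, ∃ b, SameComp r x b ∧ g b = 1

/-- Graded with exactly `k` grade levels. -/
def GradedWith {n : ℕ} (k : ℕ) (r : Fin n → Fin n → Prop) : Prop :=
  ∃ g : Fin n → ℕ, IsGrade r g ∧ (univ.image g).card = k

/-- The number of graded orders on an `n`-element set with exactly `k` grade levels. -/
noncomputable def a (k n : ℕ) : ℕ :=
  Nat.card {r : Fin n → Fin n → Prop // IsOrd r ∧ GradedWith k r}

/-! ### The construction -/

variable {n : ℕ}

/-- Level functions with choices of nonempty sets of lower neighbours. -/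
structure Valid (l : Fin n → ℕ) (N : Fin n → Finset (Fin n)) : Prop where
  range : ∀ x, 1 ≤ l x ∧ l x ≤ 4
  surj : ∀ i, 1 ≤ i → i ≤ 4 → ∃ x, l x = i
  nonempty : ∀ x, l x ≠ 1 → (N x).Nonempty
  step : ∀ x, ∀ y ∈ N x, l y + 1 = l x

/-- The generated order. -/
def rel (N : Fin n → Finset (Fin n)) (x y : Fin n) : Prop :=
  Relation.ReflTransGen (fun u v => u ∈ N v) x y

lemma rel_level {l : Fin n → ℕ} {N : Fin n → Finset (Fin n)} (h : Valid l N) {x y : Fin n}
    (hxy : rel N x y) : x = y ∨ l x < l y := by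
  induction hxy with
  | refl => exact Or.inl rfl
  | tail _ h2 ih =>
    have h3 := h.step _ _ h2
    right
    rcases ih with rfl | ih
    · omega
    · omega

lemma rel_le {l : Fin n → ℕ} {N : Fin n → Finset (Fin n)} (h : Valid l N) {x y : Fin n}
    (hxy : rel N x y) : l x ≤ l y := by
  rcases rel_level h hxy with rfl | h1
  · exact le_rfl
  · exact h1.le

lemma isOrd_rel {l : Fin n → ℕ} {N : Fin n → Finset (Fin n)} (h : Valid l N) : IsOrd (rel N) := by
  refine ⟨fun x => Relation.ReflTransGen.refl, ?_, fun x y z h1 h2 => h1.trans h2⟩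
  intro x y h1 h2
  rcases rel_level h h1 with h3 | h3
  · exact h3
  · have := rel_le h h2
    omega

lemma graded_rel {l : Fin n → ℕ} {N : Fin n → Finset (Fin n)} (h : Valid l N) :
    GradedWith 4 (rel N) := by
  refine ⟨l, ⟨fun x => (h.range x).1, fun x y hxy => rel_le h hxy, ?_, ?_⟩, ?_⟩
  · rintro p q ⟨h1, h2, h3⟩
    rcases Relation.ReflTransGen.cases_head h1 with h4 | ⟨z, hz, hzq⟩
    · exact (h2 h4).elim
    · have h5 := h.step _ _ hz
      by_cases hq : z = q
      · rw [← hq]; exact h5.symm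
      · exfalso
        refine h3 ⟨z, ?_, hq, Relation.ReflTransGen.single hz, hzq⟩
        rintro rfl
        omega
  · intro x
    induction hk : l x using Nat.strong_induction_on generalizing x with
    | _ k ih =>
      by_cases h1 : l x = 1
      · exact ⟨x, Relation.ReflTransGen.refl, h1⟩
      · obtain ⟨y, hy⟩ := h.nonempty x h1
        have h2 := h.step x y hy
        obtain ⟨b, hb, hb1⟩ := ih (l y) (by omega) y rfl
        refine ⟨b, ?_, hb1⟩
        exact Relation.ReflTransGen.head (Or.inr (Relation.ReflTransGen.single hy)) hb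
  · have h1 : univ.image l = Finset.Icc 1 4 := by
      ext i
      simp only [Finset.mem_image, Finset.mem_univ, true_and, Finset.mem_Icc]
      constructor
      · rintro ⟨x, rfl⟩; exact h.range x
      · rintro ⟨h1, h2⟩; exact h.surj i h1 h2
    rw [h1]
    simp

lemma level_le {l l' : Fin n → ℕ} {N N' : Fin n → Finset (Fin n)} (h : Valid l N)
    (h' : Valid l' N') (hr : rel N = rel N') (x : Fin n) : l x ≤ l' x := by
  induction hk : l x using Nat.strong_induction_on generalizing x with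
  | _ k ih =>
    by_cases h1 : l x = 1
    · have := (h'.range x).1
      omega
    · obtain ⟨y, hy⟩ := h.nonempty x h1
      have h2 := h.step x y hy
      have h3 := ih (l y) (by omega) y rfl
      have h4 : rel N y x := Relation.ReflTransGen.single hy
      have h5 : rel N' y x := hr ▸ h4
      rcases rel_level h' h5 with h6 | h6
      · rw [h6] at h2; omega
      · omega

lemma mem_iff {l : Fin n → ℕ} {N : Fin n → Finset (Fin n)} (h : Valid l N) (x y : Fin n) :
    y ∈ N x ↔ rel N y x ∧ l y + 1 = l x := by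
  constructor
  · intro hy
    exact ⟨Relation.ReflTransGen.single hy, h.step x y hy⟩
  · rintro ⟨h1, h2⟩
    rcases Relation.ReflTransGen.cases_tail h1 with h3 | ⟨z, hz, hzx⟩
    · rw [h3] at h2; omega
    · have h4 := h.step _ _ hzx
      rcases rel_level h hz with h5 | h5
      · rw [h5]; exact hzx
      · omega

lemma inj {l l' : Fin n → ℕ} {N N' : Fin n → Finset (Fin n)} (h : Valid l N)
    (h' : Valid l' N') (hr : rel N = rel N') : l = l' ∧ N = N' := by
  have h1 : l = l' := funext fun x => le_antisymm (level_le h h' hr x) (level_le h' h hr.symm x)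
  refine ⟨h1, ?_⟩
  funext x
  ext y
  rw [mem_iff h, mem_iff h', hr, h1]

/-! ### Counting -/

/-- The elements of level `j`. -/
def L (l : Fin n → ℕ) (j : ℕ) : Finset (Fin n) := univ.filter fun x => l x = j

/-- The choices at `x`. -/
def ch (l : Fin n → ℕ) (x : Fin n) : Finset (Finset (Fin n)) :=
  if l x = 1 then {∅} else (L l (l x - 1)).powerset.erase ∅

lemma card_ch (l : Fin n → ℕ) (x : Fin n) :
    (ch l x).card = if l x = 1 then 1 else 2 ^ (L l (l x - 1)).card - 1 := by
  unfold ch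
  split_ifs
  · simp
  · rw [Finset.card_erase_of_mem (Finset.empty_mem_powerset _), Finset.card_powerset]

lemma card_pi (l : Fin n → ℕ) (hl : ∀ x, 1 ≤ l x ∧ l x ≤ 4) :
    (Fintype.piFinset (ch l)).card = (2 ^ (L l 1).card - 1) ^ (L l 2).card *
      (2 ^ (L l 2).card - 1) ^ (L l 3).card * (2 ^ (L l 3).card - 1) ^ (L l 4).card := by
  rw [Fintype.card_piFinset]
  have hmaps : ∀ x ∈ (univ : Finset (Fin n)), l x ∈ Finset.Icc 1 4 := fun x _ =>
    Finset.mem_Icc.2 (hl x)
  rw [← Finset.prod_fiberwise_of_maps_to hmaps]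
  have h1 : ∀ j ∈ Finset.Icc 1 4, ∏ x ∈ (univ : Finset (Fin n)) with l x = j, (ch l x).card =
      (if j = 1 then 1 else 2 ^ (L l (j - 1)).card - 1) ^ (L l j).card := by
    intro j _
    rw [Finset.prod_congr rfl (g := fun _ => if j = 1 then 1 else 2 ^ (L l (j - 1)).card - 1)]
    · rw [Finset.prod_const]
      rfl
    · intro x hx
      rw [Finset.mem_filter] at hx
      rw [card_ch, hx.2]
  rw [Finset.prod_congr rfl h1]
  have h2 : Finset.Icc 1 4 = {1, 2, 3, 4} := by decide
  rw [h2]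
  simp [mul_assoc]

/-- The level function of a pair `(X, A)`: level one is `A`, level three is the rest of the
complement of `X`, level four is the least element of `X` and level two the rest of `X`. -/
def lev (p : (_ : Finset (Fin n)) × Finset (Fin n)) (x : Fin n) : ℕ :=
  if x ∈ p.2 then 1 else if x ∈ p.1 then (if ∀ y ∈ p.1, x ≤ y then 4 else 2) else 3

/-- The pairs `(X, A)`. -/
def idx (m : ℕ) : Finset ((_ : Finset (Fin (6 * m))) × Finset (Fin (6 * m))) :=
  (powersetCard (3 * m) univ).sigma fun X => powersetCard m Xᶜ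

lemma card_idx (m : ℕ) : (idx m).card = (6 * m).choose (3 * m) * (3 * m).choose m := by
  unfold idx
  rw [Finset.card_sigma, Finset.sum_congr rfl (g := fun _ => (3 * m).choose m)]
  · rw [Finset.sum_const, Finset.card_powersetCard, Finset.card_univ, Fintype.card_fin,
      smul_eq_mul]
  · intro X hX
    rw [Finset.mem_powersetCard] at hX
    rw [Finset.card_powersetCard, Finset.card_compl, hX.2, Fintype.card_fin]
    congr 1
    omega

lemma lev_props {m : ℕ} (hm : 1 ≤ m) {p : (_ : Finset (Fin (6 * m))) × Finset (Fin (6 * m))}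
    (hp : p ∈ idx m) :
    (∀ x, 1 ≤ lev p x ∧ lev p x ≤ 4) ∧ L (lev p) 1 = p.2 ∧ L (lev p) 2 ∪ L (lev p) 4 = p.1 ∧
      (L (lev p) 1).card = m ∧ (L (lev p) 2).card = 3 * m - 1 ∧ (L (lev p) 3).card = 2 * m ∧
      (L (lev p) 4).card = 1 := by
  obtain ⟨X, A⟩ := p
  simp only [idx, Finset.mem_sigma, Finset.mem_powersetCard] at hp
  obtain ⟨⟨-, hX⟩, hA, hAc⟩ := hp
  have hAX : ∀ x ∈ A, x ∉ X := fun x hx => Finset.mem_compl.1 (hA hx)
  have hXne : X.Nonempty := by
    rw [← Finset.card_pos]; omega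
  have hmin : ∀ x ∈ X, (∀ y ∈ X, x ≤ y) ↔ x = X.min' hXne := by
    intro x hx
    constructor
    · intro h
      exact le_antisymm (h _ (X.min'_mem hXne)) (X.min'_le x hx)
    · rintro rfl y hy
      exact X.min'_le y hy
  have hmA : X.min' hXne ∉ A := fun h => hAX _ h (X.min'_mem hXne)
  have e1 : L (lev ⟨X, A⟩) 1 = A := by
    ext x
    simp only [L, lev, Finset.mem_filter, Finset.mem_univ, true_and]
    split_ifs with h1 h2 h3 <;> simp [h1]
  have e4 : L (lev ⟨X, A⟩) 4 = {X.min' hXne} := by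
    ext x
    simp only [L, lev, Finset.mem_filter, Finset.mem_univ, true_and, Finset.mem_singleton]
    by_cases h1 : x ∈ A
    · rw [if_pos h1]
      constructor
      · intro h; omega
      · rintro rfl; exact (hmA h1).elim
    · rw [if_neg h1]
      by_cases h2 : x ∈ X
      · rw [if_pos h2, ← hmin x h2]
        split_ifs with h3
        · exact ⟨fun _ => h3, fun _ => rfl⟩
        · constructor
          · intro h; omega
          · intro h; exact (h3 h).elim
      · rw [if_neg h2]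
        constructor
        · intro h; omega
        · rintro rfl; exact (h2 (X.min'_mem hXne)).elim
  have e3 : L (lev ⟨X, A⟩) 3 = Xᶜ \ A := by
    ext x
    simp only [L, lev, Finset.mem_filter, Finset.mem_univ, true_and, Finset.mem_sdiff,
      Finset.mem_compl]
    by_cases h1 : x ∈ A
    · simp [h1]
    · by_cases h2 : x ∈ X
      · simp only [h1, h2, if_true, if_false]
        split_ifs <;> simp
      · simp [h1, h2]
  have e2 : L (lev ⟨X, A⟩) 2 = X.erase (X.min' hXne) := by
    ext x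
    simp only [L, lev, Finset.mem_filter, Finset.mem_univ, true_and, Finset.mem_erase]
    by_cases h1 : x ∈ A
    · have h2 := hAX x h1
      simp [h1, h2]
    · by_cases h2 : x ∈ X
      · have h3 := hmin x h2
        simp only [h1, h2, if_true, if_false, and_true]
        split_ifs with h4
        · simp [h3.1 h4]
        · have h5 : x ≠ X.min' hXne := fun h => h4 (h3.2 h)
          simp [h5]
      · simp [h1, h2]
  refine ⟨?_, e1, ?_, ?_, ?_, ?_, ?_⟩
  · intro x
    simp only [lev]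
    split_ifs <;> omega
  · rw [e2, e4]
    ext x
    simp only [Finset.mem_union, Finset.mem_erase, Finset.mem_singleton]
    constructor
    · rintro (h | rfl)
      · exact h.2
      · exact X.min'_mem hXne
    · intro h
      by_cases h1 : x = X.min' hXne
      · exact Or.inr h1
      · exact Or.inl ⟨h1, h⟩
  · rw [e1, hAc]
  · rw [e2, Finset.card_erase_of_mem (X.min'_mem hXne), hX]
  · rw [e3, Finset.card_sdiff_of_subset hA, Finset.card_compl, hX, hAc, Fintype.card_fin]
    omega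
  · rw [e4, Finset.card_singleton]

/-- All the data. -/
def data (m : ℕ) : Finset ((_ : (_ : Finset (Fin (6 * m))) × Finset (Fin (6 * m))) ×
    (Fin (6 * m) → Finset (Fin (6 * m)))) :=
  (idx m).sigma fun p => Fintype.piFinset (ch (lev p))

lemma card_data (m : ℕ) (hm : 1 ≤ m) : (data m).card =
    (6 * m).choose (3 * m) * (3 * m).choose m * ((2 ^ m - 1) ^ (3 * m - 1) *
      (2 ^ (3 * m - 1) - 1) ^ (2 * m) * (2 ^ (2 * m) - 1)) := by
  unfold data
  rw [Finset.card_sigma, Finset.sum_congr rfl (g := fun _ => (2 ^ m - 1) ^ (3 * m - 1) *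
      (2 ^ (3 * m - 1) - 1) ^ (2 * m) * (2 ^ (2 * m) - 1))]
  · rw [Finset.sum_const, card_idx, smul_eq_mul]
  · intro p hp
    obtain ⟨h0, -, -, h1, h2, h3, h4⟩ := lev_props hm hp
    rw [card_pi _ h0, h1, h2, h3, h4, pow_one]

lemma valid_data {m : ℕ} (hm : 1 ≤ m) {d : (_ : (_ : Finset (Fin (6 * m))) ×
    Finset (Fin (6 * m))) × (Fin (6 * m) → Finset (Fin (6 * m)))} (hd : d ∈ data m) :
    Valid (lev d.1) d.2 := by
  unfold data at hd
  rw [Finset.mem_sigma, Fintype.mem_piFinset] at hd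
  obtain ⟨hp, hN⟩ := hd
  obtain ⟨h0, -, -, h1, h2, h3, h4⟩ := lev_props hm hp
  have hne : ∀ j, 0 < (L (lev d.1) j).card → ∃ x, lev d.1 x = j := by
    intro j hj
    obtain ⟨x, hx⟩ := Finset.card_pos.1 hj
    exact ⟨x, (Finset.mem_filter.1 hx).2⟩
  refine ⟨h0, ?_, ?_, ?_⟩
  · intro i hi1 hi4
    apply hne
    interval_cases i <;> omega
  · intro x hx
    have h5 := hN x
    unfold ch at h5
    rw [if_neg hx, Finset.mem_erase] at h5
    exact Finset.nonempty_iff_ne_empty.2 h5.1
  · intro x y hy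
    have h5 := hN x
    unfold ch at h5
    split_ifs at h5 with h6
    · rw [Finset.mem_singleton] at h5
      rw [h5] at hy
      exact absurd hy (Finset.notMem_empty _)
    · rw [Finset.mem_erase, Finset.mem_powerset] at h5
      have h7 := (Finset.mem_filter.1 (h5.2 hy)).2
      have := (h0 x).1
      omega

lemma card_le_a (m : ℕ) (hm : 1 ≤ m) : (data m).card ≤ a 4 (6 * m) := by
  have h1 : (data m).card = Nat.card {d // d ∈ data m} := by
    rw [Nat.card_eq_fintype_card, Fintype.card_coe]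
  rw [h1]
  unfold a
  refine Nat.card_le_card_of_injective (fun d => ⟨rel d.1.2, isOrd_rel (valid_data hm d.2),
    graded_rel (valid_data hm d.2)⟩) ?_
  rintro ⟨⟨⟨X, A⟩, N⟩, hd⟩ ⟨⟨⟨X', A'⟩, N'⟩, hd'⟩ h
  have h2 : rel N = rel N' := congrArg Subtype.val h
  obtain ⟨h3, h4⟩ := inj (valid_data hm hd) (valid_data hm hd') h2
  simp only at h3 h4
  have hp := (Finset.mem_sigma.1 hd).1
  have hp' := (Finset.mem_sigma.1 hd').1
  obtain ⟨-, hA, hX, -⟩ := lev_props hm hp
  obtain ⟨-, hA', hX', -⟩ := lev_props hm hp'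
  simp only at hA hX hA' hX'
  rw [h3] at hA hX
  have e1 : A = A' := hA.symm.trans hA'
  have e2 : X = X' := hX.symm.trans hX'
  subst e1 e2 h4
  rfl

/-! ### Estimates -/

lemma choose_ge (m : ℕ) (hm : 4 ≤ m) : 6 ^ m ≤ 3 * (3 * m).choose m := by
  induction m, hm using Nat.le_induction with
  | base => decide
  | succ m hm ih =>
    -- `(3m+3 choose m+1) * 2 (m+1) (2m+1) = 3 (3m+2) (3m+1) * (3m choose m)`
    have h1 : (3 * (m + 1)).choose (m + 1) * (m + 1).factorial * (2 * (m + 1)).factorial =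
        (3 * (m + 1)).factorial := by
      have := Nat.choose_mul_factorial_mul_factorial (n := 3 * (m + 1)) (k := m + 1) (by omega)
      rwa [show 3 * (m + 1) - (m + 1) = 2 * (m + 1) by omega] at this
    have h2 : (3 * m).choose m * m.factorial * (2 * m).factorial = (3 * m).factorial := by
      have := Nat.choose_mul_factorial_mul_factorial (n := 3 * m) (k := m) (by omega)
      rwa [show 3 * m - m = 2 * m by omega] at this
    have h3 : (3 * (m + 1)).factorial = (3 * m + 3) * (3 * m + 2) * (3 * m + 1) *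
        (3 * m).factorial := by
      rw [show 3 * (m + 1) = 3 * m + 1 + 1 + 1 by ring, Nat.factorial_succ, Nat.factorial_succ,
        Nat.factorial_succ]
      ring
    have h4 : (2 * (m + 1)).factorial = (2 * m + 2) * (2 * m + 1) * (2 * m).factorial := by
      rw [show 2 * (m + 1) = 2 * m + 1 + 1 by ring, Nat.factorial_succ, Nat.factorial_succ]
      ring
    rw [h3, h4, Nat.factorial_succ, ← h2] at h1
    have hpos : 0 < (m + 1) * (m.factorial * (2 * m).factorial) := by positivity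
    have h5 : (3 * (m + 1)).choose (m + 1) * ((2 * m + 2) * (2 * m + 1)) =
        3 * ((3 * m + 2) * (3 * m + 1)) * (3 * m).choose m := by
      apply Nat.eq_of_mul_eq_mul_right hpos
      calc (3 * (m + 1)).choose (m + 1) * ((2 * m + 2) * (2 * m + 1)) *
            ((m + 1) * (m.factorial * (2 * m).factorial)) =
            (3 * (m + 1)).choose (m + 1) * ((m + 1) * m.factorial) *
              ((2 * m + 2) * (2 * m + 1) * (2 * m).factorial) := by ring
        _ = (3 * m + 3) * (3 * m + 2) * (3 * m + 1) *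
              ((3 * m).choose m * m.factorial * (2 * m).factorial) := h1
        _ = _ := by ring
    have h6 : 6 * ((2 * m + 2) * (2 * m + 1)) ≤ 3 * ((3 * m + 2) * (3 * m + 1)) := by
      nlinarith
    have h7 : 6 * (3 * m).choose m * ((2 * m + 2) * (2 * m + 1)) ≤
        (3 * (m + 1)).choose (m + 1) * ((2 * m + 2) * (2 * m + 1)) := by
      rw [h5]
      calc 6 * (3 * m).choose m * ((2 * m + 2) * (2 * m + 1)) =
            6 * ((2 * m + 2) * (2 * m + 1)) * (3 * m).choose m := by ring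
        _ ≤ _ := Nat.mul_le_mul_right _ h6
    have h8 : 6 * (3 * m).choose m ≤ (3 * (m + 1)).choose (m + 1) :=
      Nat.le_of_mul_le_mul_right h7 (by positivity)
    rw [pow_succ]
    omega

/-- Bernoulli: `2^(a b) ≤ 2 (2^a - 1)^b` if `2 b ≤ 2^a`. -/
lemma bern (a b : ℕ) (h : 2 * b ≤ 2 ^ a) : 2 ^ (a * b) ≤ 2 * (2 ^ a - 1) ^ b := by
  have h0 : 1 ≤ 2 ^ a := Nat.one_le_two_pow
  have h1 : (-2 : ℝ) ≤ -(1 / 2 ^ a) := by
    have : (1 : ℝ) / 2 ^ a ≤ 1 := by
      rw [div_le_one (by positivity)]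
      exact_mod_cast h0
    linarith
  have h2 := one_add_mul_le_pow h1 b
  have h3 : (2 * b : ℝ) ≤ 2 ^ a := by exact_mod_cast h
  have h4 : (1 : ℝ) / 2 ≤ 1 + b * -(1 / 2 ^ a) := by
    have h5 : (b : ℝ) * (1 / 2 ^ a) ≤ 1 / 2 := by
      rw [mul_one_div, div_le_div_iff₀ (by positivity) (by norm_num)]
      linarith
    linarith
  have h5 : (1 : ℝ) / 2 ≤ (1 + -(1 / 2 ^ a)) ^ b := h4.trans h2
  have h6 : ((2 : ℝ) ^ a - 1) ^ b = (2 ^ a) ^ b * (1 + -(1 / 2 ^ a)) ^ b := by
    rw [← mul_pow]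
    congr 1
    field_simp
    ring
  have h7 : ((2 : ℝ) ^ a) ^ b ≤ 2 * ((2 : ℝ) ^ a - 1) ^ b := by
    rw [h6]
    have : (0 : ℝ) < (2 ^ a) ^ b := by positivity
    nlinarith
  rw [← pow_mul] at h7
  have h8 : (((2 ^ a - 1 : ℕ) : ℝ)) = (2 : ℝ) ^ a - 1 := by
    rw [Nat.cast_sub h0]
    push_cast
    ring
  have h9 : ((2 ^ (a * b) : ℕ) : ℝ) ≤ ((2 * (2 ^ a - 1) ^ b : ℕ) : ℝ) := by
    push_cast
    rw [h8]
    exact h7
  exact_mod_cast h9

/-- The explicit lower bound. -/
lemma a_ge (m : ℕ) (hm : 5 ≤ m) : 2 ^ (9 * m ^ 2 + 5 * m) * 6 ^ m ≤ 144 * m * a 4 (6 * m) := by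
  refine le_trans ?_ (Nat.mul_le_mul_left _ (card_le_a m (by omega)))
  rw [card_data m (by omega)]
  have h1 : 4 ^ (3 * m) ≤ 2 * (3 * m) * (3 * m).centralBinom :=
    Nat.four_pow_le_two_mul_self_mul_centralBinom (3 * m) (by omega)
  rw [Nat.centralBinom, show 2 * (3 * m) = 6 * m by ring] at h1
  have h2 := choose_ge m (by omega)
  have hpow : ∀ k : ℕ, 5 ≤ k → 6 * k ≤ 2 ^ k := by
    intro k hk
    induction k, hk using Nat.le_induction with
    | base => norm_num
    | succ k hk ih => rw [pow_succ]; omega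
  have h3 := bern m (3 * m - 1) (by
    have := hpow m hm
    omega)
  have h4 := bern (3 * m - 1) (2 * m) (by
    have := hpow (3 * m - 1) (by omega)
    omega)
  have h5 : 2 ^ (2 * m) ≤ 2 * (2 ^ (2 * m) - 1) := by
    have : 2 ≤ 2 ^ (2 * m) := by
      calc 2 = 2 ^ 1 := by norm_num
        _ ≤ 2 ^ (2 * m) := Nat.pow_le_pow_right (by norm_num) (by omega)
    omega
  have e1 : 2 ^ (9 * m ^ 2 + 5 * m) = 4 ^ (3 * m) * 2 ^ (m * (3 * m - 1)) *
      2 ^ ((3 * m - 1) * (2 * m)) * 2 ^ (2 * m) := by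
    rw [show (4 : ℕ) = 2 ^ 2 by norm_num, ← pow_mul, ← pow_add, ← pow_add, ← pow_add]
    congr 1
    obtain ⟨k, rfl⟩ : ∃ k, m = k + 1 := ⟨m - 1, by omega⟩
    rw [show 3 * (k + 1) - 1 = 3 * k + 2 by omega]
    ring
  rw [e1]
  calc 4 ^ (3 * m) * 2 ^ (m * (3 * m - 1)) * 2 ^ ((3 * m - 1) * (2 * m)) * 2 ^ (2 * m) * 6 ^ m
      ≤ (6 * m * (6 * m).choose (3 * m)) * (2 * (2 ^ m - 1) ^ (3 * m - 1)) *
        (2 * (2 ^ (3 * m - 1) - 1) ^ (2 * m)) * (2 * (2 ^ (2 * m) - 1)) *
        (3 * (3 * m).choose m) :=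
        Nat.mul_le_mul (Nat.mul_le_mul (Nat.mul_le_mul (Nat.mul_le_mul h1 h3) h4) h5) h2
    _ = _ := by ring

lemma log_ge (m : ℕ) (hm : 5 ≤ m) :
    9 * (m : ℝ) ^ 2 + (5 + Real.logb 2 6) * m - Real.logb 2 (144 * m) ≤
      Real.logb 2 (a 4 (6 * m)) := by
  have h1 := a_ge m hm
  have hm' : (0 : ℝ) < m := by
    have : 0 < m := by omega
    exact_mod_cast this
  have h2 : (2 : ℝ) ^ (9 * m ^ 2 + 5 * m) * 6 ^ m ≤ 144 * m * a 4 (6 * m) := by exact_mod_cast h1
  have h3 : (0 : ℝ) < a 4 (6 * m) := by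
    have h4 : (0 : ℝ) < 144 * m * a 4 (6 * m) := lt_of_lt_of_le (by positivity) h2
    by_contra h5
    have h6 : (a 4 (6 * m) : ℝ) = 0 := le_antisymm (not_lt.1 h5) (by positivity)
    rw [h6] at h4
    simp at h4
  have h4 := Real.logb_le_logb_of_le (b := 2) (by norm_num) (by positivity) h2
  rw [Real.logb_mul (by positivity) (by positivity), Real.logb_mul (by positivity) h3.ne',
    Real.logb_pow, Real.logb_pow, Real.logb_self_eq_one (by norm_num)] at h4
  push_cast at h4
  linarith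

/-- **The asked formula for `a₄` is false.** -/
theorem result :
    (∀ m : ℕ, 5 ≤ m → 9 * (m : ℝ) ^ 2 + (5 + Real.logb 2 6) * m - Real.logb 2 (144 * m) ≤
      Real.logb 2 (a 4 (6 * m))) ∧
    ¬ ((fun n : ℕ => Real.logb 2 (a 4 n) - ((n : ℝ) ^ 2 / 4 + 5 / 4 * n)) =O[Filter.atTop]
      (fun n : ℕ => Real.log n)) := by
  refine ⟨log_ge, ?_⟩
  intro hO
  obtain ⟨C, hC⟩ := hO.bound
  have htend : Filter.Tendsto (fun m : ℕ => 6 * m) Filter.atTop Filter.atTop :=
    Filter.tendsto_atTop_mono (fun m => by simp only [id]; omega) Filter.tendsto_id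
  have h1 := htend.eventually hC
  -- the linear term wins
  have hlog6 : (5 : ℝ) / 2 + 1 / 20 ≤ Real.logb 2 6 := by
    rw [Real.le_logb_iff_rpow_le (by norm_num) (by norm_num)]
    have h2 : (2 : ℝ) ^ ((5 : ℝ) / 2 + 1 / 20) = ((2 : ℝ) ^ (51 : ℕ)) ^ ((1 : ℝ) / 20) := by
      rw [← Real.rpow_natCast, ← Real.rpow_mul (by norm_num)]
      norm_num
    rw [h2]
    calc ((2 : ℝ) ^ (51 : ℕ)) ^ ((1 : ℝ) / 20) ≤ ((6 : ℝ) ^ (20 : ℕ)) ^ ((1 : ℝ) / 20) := by
          apply Real.rpow_le_rpow (by positivity) _ (by norm_num)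
          norm_num
      _ = 6 := by
          rw [← Real.rpow_natCast, ← Real.rpow_mul (by norm_num)]
          norm_num
  have hlittle : (fun m : ℕ => Real.log m) =o[Filter.atTop] (fun m : ℕ => (m : ℝ)) :=
    Real.isLittleO_log_id_atTop.comp_tendsto tendsto_natCast_atTop_atTop
  have hl1 := hlittle.bound (c := 1 / (40 * (|C| + 2))) (by positivity)
  obtain ⟨m, ⟨⟨hm1, hm2⟩, hm3⟩, hm4⟩ := (((h1.and hl1).and (Filter.eventually_ge_atTop 1000000)).and
    (Filter.eventually_ge_atTop (Nat.ceil (1000 * (|C| + 2))))).exists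
  have hm0 : (1000000 : ℝ) ≤ m := by exact_mod_cast hm3
  have hm5 : 1000 * (|C| + 2) ≤ (m : ℝ) := (Nat.le_ceil _).trans (by exact_mod_cast hm4)
  have hlogpos : 0 ≤ Real.log m := Real.log_natCast_nonneg m
  rw [Real.norm_eq_abs, Real.norm_eq_abs, abs_of_nonneg hlogpos,
    abs_of_nonneg (show (0 : ℝ) ≤ (m : ℝ) by linarith)] at hm2
  rw [Real.norm_eq_abs, Real.norm_eq_abs] at hm1
  push_cast at hm1
  have hlog6m : 0 ≤ Real.log (6 * (m : ℝ)) := Real.log_nonneg (by linarith)
  rw [abs_of_nonneg hlog6m] at hm1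
  have h2 := log_ge m (by omega)
  have h3 := (le_abs_self _).trans hm1
  -- logarithms
  have h4 : Real.log (6 * (m : ℝ)) = Real.log 6 + Real.log m :=
    Real.log_mul (by norm_num) (by positivity)
  have h5 : Real.logb 2 (144 * (m : ℝ)) = (Real.log 144 + Real.log m) / Real.log 2 := by
    rw [Real.logb, Real.log_mul (by norm_num) (by positivity)]
  have h6 : Real.log 6 ≤ 5 := by
    have := Real.log_le_sub_one_of_pos (x := 6) (by norm_num)
    linarith
  have h7 : Real.log 144 ≤ 143 := by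
    have := Real.log_le_sub_one_of_pos (x := 144) (by norm_num)
    linarith
  have h8 : (1 : ℝ) / 2 ≤ Real.log 2 := by
    have := Real.log_two_gt_d9
    linarith
  have h9 : Real.logb 2 (144 * (m : ℝ)) ≤ 2 * (143 + Real.log m) := by
    rw [h5, div_le_iff₀ (by linarith)]
    nlinarith
  have h10 : C * Real.log (6 * (m : ℝ)) ≤ |C| * (5 + Real.log m) := by
    rw [h4]
    have hC1 : C ≤ |C| := le_abs_self C
    have hC2 : 0 ≤ |C| := abs_nonneg C
    have h61 : 0 ≤ Real.log 6 := Real.log_nonneg (by norm_num)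
    calc C * (Real.log 6 + Real.log m) ≤ |C| * (Real.log 6 + Real.log m) :=
          mul_le_mul_of_nonneg_right hC1 (by linarith)
      _ ≤ |C| * (5 + Real.log m) := mul_le_mul_of_nonneg_left (by linarith) hC2
  have h11 : (|C| + 2) * Real.log m ≤ m / 40 := by
    have h12 := mul_le_mul_of_nonneg_left hm2 (show 0 ≤ |C| + 2 by positivity)
    have h13 : (|C| + 2) * (1 / (40 * (|C| + 2)) * (m : ℝ)) = m / 40 := by
      field_simp
    linarith
  have h14 : (5 / 2 + 1 / 20) * (m : ℝ) ≤ Real.logb 2 6 * m :=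
    mul_le_mul_of_nonneg_right hlog6 (by linarith)
  nlinarith

end Pool.Agent.Results.MP_ac85ec_co.FourLevels
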